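import Pool.Agent.Y748.SR.Stm7
import Pool.Agent.Y948.SR.ML

/-!
SR4-GRID: pair sums and pairs of intervals of the grid.
-/

open Finset Filter Topology MeasureTheory

set_option autoImplicit false

namespace Pool.Agent.Y445.SR

open Pool.Agent.Y748.SR Pool.Agent.Y948.SRML

theorem ind_eqO (c ε s t : ℝ) :
    (fun x : ℝ => (if s - x ∈ Set.Ioc c (c + ε) ∧ t - x ∈ Set.Ioc 0 ε then (1:ℝ) else 0)) =
      (Set.Ico (max (s - c - ε) (t - ε)) (min (s - c) t)).indicator (fun _ => (1:ℝ)) := by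
  funext x
  have hiff : (s - x ∈ Set.Ioc c (c + ε) ∧ t - x ∈ Set.Ioc 0 ε) ↔
      x ∈ Set.Ico (max (s - c - ε) (t - ε)) (min (s - c) t) := by
    simp only [Set.mem_Ioc, Set.mem_Ico, max_le_iff, lt_min_iff]
    constructor
    · rintro ⟨⟨h1, h2⟩, h3, h4⟩
      refine ⟨⟨?_, ?_⟩, ?_, ?_⟩ <;> linarith
    · rintro ⟨⟨h1, h2⟩, h3, h4⟩
      refine ⟨⟨?_, ?_⟩, ?_, ?_⟩ <;> linarith
  by_cases h : x ∈ Set.Ico (max (s - c - ε) (t - ε)) (min (s - c) t)
  · rw [Set.indicator_of_mem h, if_pos (hiff.2 h)]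
  · rw [Set.indicator_of_notMem h, if_neg (fun h' => h (hiff.1 h'))]

/-- one term -/
theorem int_termO (N c ε s t : ℝ) (hN : 0 ≤ N) :
    ∫ x in (0:ℝ)..N, (if s - x ∈ Set.Ioc c (c + ε) ∧ t - x ∈ Set.Ioc 0 ε then (1:ℝ) else 0) =
      G N c ε s t := by
  have e1 := ind_eqO c ε s t
  rw [intervalIntegral.integral_of_le hN, ← integral_Ico_eq_integral_Ioc, e1,
    setIntegral_indicator measurableSet_Ico, Set.Ico_inter_Ico]
  simp only [integral_const, smul_eq_mul, mul_one, measureReal_restrict_apply_univ,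
    Real.volume_real_Ico]
  unfold G
  congr 2
  · rw [min_assoc]
  · rw [max_assoc]

theorem int_term_intO (N c ε s t : ℝ) :
    IntervalIntegrable (fun x : ℝ =>
      (if s - x ∈ Set.Ioc c (c + ε) ∧ t - x ∈ Set.Ioc 0 ε then (1:ℝ) else 0)) volume 0 N := by
  have e1 := ind_eqO c ε s t
  rw [e1]
  have : Integrable ((Set.Ico (max (s - c - ε) (t - ε)) (min (s - c) t)).indicator
      (fun _ => (1:ℝ))) volume := by
    rw [integrable_indicator_iff measurableSet_Ico]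
    exact integrableOn_const (by simp [Real.volume_Ico])
  exact this.intervalIntegrable

/-- the correlation of a box as a sum over pairs -/
theorem corO_eq {u : ℕ → ℝ} (hu : Sq u) (N : ℕ) (c ε B : ℝ) (hB : c + ε ≤ B) (hB' : ε ≤ B) :
    corO u 2 N ![0, c] ![ε, c + ε] =
      (1 / N : ℝ) * ∑ p ∈ PP hu (N + B), G N c ε (u p.1) (u p.2) := by
  unfold corO
  congr 1
  have hN : (0:ℝ) ≤ N := Nat.cast_nonneg N
  have key : ∀ x ∈ Set.uIcc (0:ℝ) N, ({n : Fin 2 → ℕ | Function.Injective n ∧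
      ∀ i, 1 ≤ n i ∧ u (n i) - x ∈ Set.Ioc ((![0, c] : Fin 2 → ℝ) i)
        ((![ε, c + ε] : Fin 2 → ℝ) i)}.ncard : ℝ) =
      ∑ p ∈ PP hu (N + B), (if u p.1 - x ∈ Set.Ioc c (c + ε) ∧ u p.2 - x ∈ Set.Ioc 0 ε
        then (1:ℝ) else 0) := by
    intro x hx
    rw [Set.uIcc_of_le hN] at hx
    have e : {n : Fin 2 → ℕ | Function.Injective n ∧
      ∀ i, 1 ≤ n i ∧ u (n i) - x ∈ Set.Ioc ((![0, c] : Fin 2 → ℝ) i)
        ((![ε, c + ε] : Fin 2 → ℝ) i)} = (fun p : ℕ × ℕ => (![p.2, p.1] : Fin 2 → ℕ)) ''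
        (((PP hu (N + B)).filter fun p => u p.1 - x ∈ Set.Ioc c (c + ε) ∧
          u p.2 - x ∈ Set.Ioc 0 ε : Finset (ℕ × ℕ)) : Set (ℕ × ℕ)) := by
      ext n
      simp only [Set.mem_ofPred_eq, Set.mem_image, Finset.coe_filter, mem_PP, Fin.forall_fin_two,
        Matrix.cons_val_zero, Matrix.cons_val_one]
      constructor
      · rintro ⟨h1, ⟨h2, h3⟩, h4, h5⟩
        refine ⟨(n 1, n 0), ⟨⟨⟨h4, ?_⟩, ⟨h2, ?_⟩, ?_⟩, h5, h3⟩, ?_⟩
        · have := h5.2
          simp only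
          linarith [hx.2]
        · have := h3.2
          simp only
          linarith [hx.2]
        · intro h
          exact absurd (h1 h) (by decide)
        · funext i
          fin_cases i <;> rfl
      · rintro ⟨p, ⟨⟨⟨h1, h2⟩, ⟨h3, h4⟩, h5⟩, h6, h7⟩, rfl⟩
        refine ⟨?_, ⟨h3, h7⟩, h1, h6⟩
        intro i j hij
        fin_cases i <;> fin_cases j <;> simp at hij ⊢
        · exact absurd hij.symm h5
        · exact absurd hij h5
    rw [e, Set.ncard_image_of_injective, Set.ncard_coe_finset, Finset.natCast_card_filter]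
    intro p q hpq
    have h0 := congrFun hpq 0
    have h1 := congrFun hpq 1
    simp at h0 h1
    exact Prod.ext h1 h0
  rw [intervalIntegral.integral_congr key, intervalIntegral.integral_finsetSum]
  · exact Finset.sum_congr rfl fun p _ => int_termO _ _ _ _ _ hN
  · exact fun p _ => int_term_intO _ _ _ _ _

theorem sum_Icc_int (L : ℕ) (g : ℤ → ℝ) :
    ∑ d ∈ Finset.Icc (-(L : ℤ)) L, g d = ∑ k ∈ Finset.range (2 * L + 1), g ((k : ℤ) - L) := by
  symm
  refine Finset.sum_nbij' (fun k : ℕ => (k : ℤ) - L) (fun d : ℤ => (d + L).toNat) ?_ ?_ ?_ ?_ ?_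
  · intro k hk
    rw [Finset.mem_range] at hk
    rw [Finset.mem_Icc]
    constructor <;> omega
  · intro d hd
    rw [Finset.mem_Icc] at hd
    rw [Finset.mem_range]
    omega
  · intro k _
    simp
  · intro d hd
    rw [Finset.mem_Icc] at hd
    omega
  · intro k _
    rfl

/-- the sum over the grid at one point -/
theorem point {f : ℝ → ℝ} {K M : ℕ} (hM : 1 ≤ M) (hf : ∀ v : ℝ, (K : ℝ) ≤ |v| → f v = 0) {ω : ℝ}
    (hω : ∀ v w : ℝ, |v - w| ≤ 1 / M → |f v - f w| ≤ ω) (v : ℝ) :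
    |f v - ∑ d ∈ Finset.Icc (-((K * M : ℕ) : ℤ)) ((K * M : ℕ) : ℤ), f (d / M) *
      (M * hat (1 / M) (d / M) v)| ≤ ω * (if |v| ≤ ((K + 1 : ℕ) : ℝ) then 1 else 0) := by
  have hM0 : (0 : ℝ) < M := by exact_mod_cast hM
  have hM1 : (1 : ℝ) ≤ M := by exact_mod_cast hM
  have hMi : (0 : ℝ) < 1 / M := by positivity
  have hMi1 : 1 / (M : ℝ) ≤ 1 := by rw [div_le_one hM0]; exact hM1
  split_ifs with hv
  · have h1 : ∑ d ∈ Finset.Icc (-((K * M : ℕ) : ℤ)) ((K * M : ℕ) : ℤ), f (d / M) *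
        (M * hat (1 / M) (d / M) v) =
        ∑ d ∈ Finset.Icc (-(((K + 1) * M : ℕ) : ℤ)) (((K + 1) * M : ℕ) : ℤ), f (d / M) *
        (M * hat (1 / M) (d / M) v) := by
      refine Finset.sum_subset ?_ ?_
      · intro d hd
        rw [Finset.mem_Icc] at hd ⊢
        have h2 : K * M ≤ (K + 1) * M := Nat.mul_le_mul_right _ (Nat.le_succ K)
        constructor <;> omega
      · intro d _ hd
        rw [Finset.mem_Icc, not_and_or] at hd
        have h2 : (K : ℝ) ≤ |(d : ℝ) / M| := by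
          rw [abs_div, abs_of_pos hM0, le_div_iff₀ hM0]
          have h3 : ((K * M : ℕ) : ℤ) ≤ |d| := by
            rcases hd with hd | hd
            · push Not at hd
              rw [abs_of_nonpos (by omega)]
              omega
            · push Not at hd
              rw [abs_of_nonneg (by omega)]
              omega
          have h4 : (((K * M : ℕ) : ℤ) : ℝ) ≤ ((|d| : ℤ) : ℝ) := by exact_mod_cast h3
          push_cast at h4
          exact h4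
        rw [hf _ h2, zero_mul]
    have h2 : ∑ d ∈ Finset.Icc (-(((K + 1) * M : ℕ) : ℤ)) (((K + 1) * M : ℕ) : ℤ),
        M * hat (1 / M) (d / M) v = 1 := by
      rw [sum_Icc_int, ← Finset.mul_sum]
      have h3 := hat_sum (1 / (M : ℝ)) hMi ((K + 1) * M) v (by
        push_cast
        push_cast at hv
        rw [mul_one_div, mul_div_assoc, div_self hM0.ne', mul_one]
        exact hv)
      have h4 : ∑ k ∈ Finset.range (2 * ((K + 1) * M) + 1),
          hat (1 / (M : ℝ)) ((((k : ℤ) - (((K + 1) * M : ℕ) : ℤ) : ℤ) : ℝ) / M) v = 1 / M := by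
        rw [← h3]
        refine Finset.sum_congr rfl fun k _ => ?_
        congr 1
        push_cast
        ring
      rw [h4]
      field_simp
    rw [h1, mul_one]
    have h3 : f v - ∑ d ∈ Finset.Icc (-(((K + 1) * M : ℕ) : ℤ)) (((K + 1) * M : ℕ) : ℤ),
        f (d / M) * (M * hat (1 / M) (d / M) v) =
        ∑ d ∈ Finset.Icc (-(((K + 1) * M : ℕ) : ℤ)) (((K + 1) * M : ℕ) : ℤ),
        (f v - f (d / M)) * (M * hat (1 / M) (d / M) v) := by
      have h4 : f v = ∑ d ∈ Finset.Icc (-(((K + 1) * M : ℕ) : ℤ)) (((K + 1) * M : ℕ) : ℤ),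
          f v * (M * hat (1 / M) (d / M) v) := by
        rw [← Finset.mul_sum, h2, mul_one]
      conv_lhs => rw [h4]
      rw [← Finset.sum_sub_distrib]
      exact Finset.sum_congr rfl fun d _ => by ring
    rw [h3]
    refine (Finset.abs_sum_le_sum_abs _ _).trans ?_
    have h5 : ∀ d ∈ Finset.Icc (-(((K + 1) * M : ℕ) : ℤ)) (((K + 1) * M : ℕ) : ℤ),
        |(f v - f (d / M)) * (M * hat (1 / M) (d / M) v)| ≤ ω * (M * hat (1 / M) (d / M) v) := by
      intro d _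
      have h6 : 0 ≤ M * hat (1 / M) ((d : ℝ) / M) v := mul_nonneg hM0.le (hat_nonneg _ _ _)
      rw [abs_mul, abs_of_nonneg h6]
      rcases lt_or_ge |v - (d : ℝ) / M| (1 / M) with h' | h'
      · exact mul_le_mul_of_nonneg_right (hω _ _ h'.le) h6
      · rw [hat_zero _ _ _ h', mul_zero, mul_zero, mul_zero]
    refine (Finset.sum_le_sum h5).trans ?_
    rw [← Finset.mul_sum, h2, mul_one]
  · push Not at hv
    push_cast at hv
    rw [mul_zero, hf v (by linarith), zero_sub, abs_neg]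
    refine le_of_eq ?_
    rw [abs_eq_zero]
    refine Finset.sum_eq_zero fun d _ => ?_
    rcases lt_or_ge |v - (d : ℝ) / M| (1 / M) with h' | h'
    · have h2 : (K : ℝ) ≤ |(d : ℝ) / M| := by
        have := abs_sub_abs_le_abs_sub v ((d : ℝ) / M)
        linarith
      rw [hf _ h2, zero_mul]
    · rw [hat_zero _ _ _ h', mul_zero, mul_zero]

theorem t_GRID : S_GRID := by
  intro u hu hpb f K _ _ hfK
  obtain ⟨C0, hC0⟩ := hpb (K + 1)
  refine ⟨max C0 0, ?_⟩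
  intro M hM ω hω ε hε
  have hM0 : (0 : ℝ) < M := by exact_mod_cast hM
  have hM1 : (1 : ℝ) ≤ M := by exact_mod_cast hM
  have hMi : (0 : ℝ) < 1 / M := by positivity
  have hMi1 : 1 / (M : ℝ) ≤ 1 := by rw [div_le_one hM0]; exact hM1
  have hω0 : 0 ≤ ω := by
    have := hω 0 0 (by rw [sub_self, abs_zero]; exact hMi.le)
    rwa [sub_self, abs_zero] at this
  obtain ⟨C1, hC10, hC1⟩ := iy_card hu
  obtain ⟨m, hm⟩ : ∃ m : ℕ, m = K + 2 := ⟨_, rfl⟩
  obtain ⟨I, hI⟩ : ∃ I : Finset ℤ, I = Finset.Icc (-((K * M : ℕ) : ℤ)) ((K * M : ℕ) : ℤ) :=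
    ⟨_, rfl⟩
  have hIc : ∀ d ∈ I, |(d : ℝ) / M| ≤ K := by
    intro d hd
    rw [hI, Finset.mem_Icc] at hd
    rw [abs_div, abs_of_pos hM0, div_le_iff₀ hM0]
    have h3 : |d| ≤ ((K * M : ℕ) : ℤ) := abs_le.2 hd
    have h4 : ((|d| : ℤ) : ℝ) ≤ (((K * M : ℕ) : ℤ) : ℝ) := by exact_mod_cast h3
    push_cast at h4
    exact h4
  obtain ⟨F, hF⟩ : ∃ F : ℝ, F = ∑ d ∈ I, |f ((d : ℝ) / M)| := ⟨_, rfl⟩
  have hF0 : 0 ≤ F := by rw [hF]; exact Finset.sum_nonneg fun _ _ => abs_nonneg _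
  obtain ⟨E, hE⟩ : ∃ E : ℕ → ℝ, E = fun N : ℕ => (1 / N : ℝ) * ((PP hu m).card : ℝ) +
      ((((2 * m : ℕ) : ℝ) + 1) * C1) ^ 2 * (Real.log (N + m + 3) ^ 2 * (1 / N : ℝ)) := ⟨_, rfl⟩
  have hElim : Tendsto (fun N : ℕ => F * E N) atTop (𝓝 0) := by
    have a1 := tendsto_one_div_atTop_nhds_zero_nat (𝕜 := ℝ) |>.mul_const ((PP hu m).card : ℝ)
    have a2 := (log_tend m).const_mul (((((2 * m : ℕ) : ℝ) + 1) * C1) ^ 2)
    have a3 := (a1.add a2).const_mul F
    rw [zero_mul, mul_zero, add_zero, mul_zero] at a3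
    rw [hE]
    exact a3
  have hEev : ∀ᶠ N : ℕ in atTop, F * E N < ε := hElim.eventually (gt_mem_nhds hε)
  filter_upwards [hC0, hEev, eventually_ge_atTop (m + 1)] with N hN1 hN2 hN3
  have hNpos : (0:ℝ) < N := by
    have : 0 < N := by omega
    exact_mod_cast this
  have hNm : (m : ℝ) ≤ N := by
    have : m ≤ N := by omega
    exact_mod_cast this
  -- each interval of the grid
  have hone : ∀ d ∈ I, |M * corO u 2 N ![0, (d : ℝ) / M] ![1 / M, ((d : ℝ) + 1) / M] -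
      (1 / N : ℝ) * ∑ p ∈ PP hu N, M * hat (1 / M) (d / M) (u p.1 - u p.2)| ≤ E N := by
    intro d hd
    have hc := hIc d hd
    have hcm : |(d : ℝ) / M| + 2 * (1 / M) ≤ m := by
      rw [hm]
      push_cast
      linarith
    have e1 : ((d : ℝ) + 1) / M = (d : ℝ) / M + 1 / M := by ring
    have hle := le_abs_self ((d : ℝ) / M)
    have hab := abs_nonneg ((d : ℝ) / M)
    rw [e1, corO_eq hu N ((d : ℝ) / M) (1 / M) m (by linarith) (by linarith), ← Finset.mul_sum]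
    have e2 : (M : ℝ) * ((1 / N : ℝ) * ∑ p ∈ PP hu (N + m), G N ((d : ℝ) / M) (1 / M) (u p.1) (u p.2)) -
        (1 / N : ℝ) * (M * ∑ p ∈ PP hu N, hat (1 / M) ((d : ℝ) / M) (u p.1 - u p.2)) =
        (1 / N : ℝ) * (M * (∑ p ∈ PP hu (N + m), G N ((d : ℝ) / M) (1 / M) (u p.1) (u p.2) -
          ∑ p ∈ PP hu N, hat (1 / M) ((d : ℝ) / M) (u p.1 - u p.2))) := by ring
    rw [e2, abs_mul, abs_mul, abs_of_pos (by positivity : (0 : ℝ) < 1 / N), abs_of_pos hM0]
    have b1 := diff_le hu N ((d : ℝ) / M) (1 / M) hMi m hcm (by omega)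
    have b2 := hC1 ((N : ℝ) - m) (by linarith) (2 * m)
    have b3 : (N : ℝ) - m + ((2 * m : ℕ) : ℝ) + 3 = N + m + 3 := by
      push_cast
      ring
    rw [b3] at b2
    have b4 : ((iy hu ((N : ℝ) - m) ((N : ℝ) - m + (2 * m : ℕ))).card : ℝ) ^ 2 ≤
        ((((2 * m : ℕ) : ℝ) + 1) * (C1 * Real.log (N + m + 3))) ^ 2 :=
      pow_le_pow_left₀ (Nat.cast_nonneg _) b2 2
    have b5 := mul_le_mul_of_nonneg_left b4 hMi.le
    have b6 := b1.trans (add_le_add le_rfl b5)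
    have b7 := mul_le_mul_of_nonneg_left (mul_le_mul_of_nonneg_left b6 hM0.le)
      (by positivity : (0 : ℝ) ≤ 1 / N)
    refine b7.trans (le_of_eq ?_)
    rw [hE]
    simp only
    field_simp
  -- the sum over the grid
  have hsum : |∑ d ∈ I, f (d / M) * (M * corO u 2 N ![0, (d : ℝ) / M] ![1 / M, ((d : ℝ) + 1) / M]) -
      (1 / N : ℝ) * ∑ p ∈ PP hu N, ∑ d ∈ I, f (d / M) * (M * hat (1 / M) (d / M) (u p.1 - u p.2))| ≤
      F * E N := by
    have e1 : (1 / N : ℝ) * ∑ p ∈ PP hu N, ∑ d ∈ I, f (d / M) *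
        (M * hat (1 / M) (d / M) (u p.1 - u p.2)) =
        ∑ d ∈ I, f (d / M) * ((1 / N : ℝ) * ∑ p ∈ PP hu N,
          M * hat (1 / M) (d / M) (u p.1 - u p.2)) := by
      rw [Finset.sum_comm, Finset.mul_sum]
      refine Finset.sum_congr rfl fun d _ => ?_
      rw [← Finset.mul_sum]
      ring
    rw [e1, ← Finset.sum_sub_distrib, hF, Finset.sum_mul]
    refine (Finset.abs_sum_le_sum_abs _ _).trans (Finset.sum_le_sum fun d hd => ?_)
    rw [← mul_sub, abs_mul]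
    exact mul_le_mul_of_nonneg_left (hone d hd) (abs_nonneg _)
  -- the pair sum
  have hpsum : psum u N f = ∑ p ∈ PP hu N, f (u p.1 - u p.2) := by
    unfold psum
    have hset : {p : ℕ × ℕ | 1 ≤ p.1 ∧ 1 ≤ p.2 ∧ p.1 ≠ p.2 ∧ u p.1 ≤ N ∧ u p.2 ≤ N} =
        ((PP hu N : Finset (ℕ × ℕ)) : Set (ℕ × ℕ)) := by
      ext p
      simp only [Finset.mem_coe, mem_PP, Set.mem_ofPred_eq]
      tauto
    rw [hset, finsum_mem_coe_finset]
  have hcard : ∑ p ∈ PP hu N, (if |u p.1 - u p.2| ≤ ((K + 1 : ℕ) : ℝ) then (1 : ℝ) else 0) ≤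
      max C0 0 * N := by
    rw [Finset.sum_boole]
    refine le_trans ?_ (hN1.trans (mul_le_mul_of_nonneg_right (le_max_left _ _) hNpos.le))
    have h1 : ({p : ℕ × ℕ | 1 ≤ p.1 ∧ 1 ≤ p.2 ∧ u p.1 ≤ N ∧ u p.2 ≤ N ∧
        |u p.1 - u p.2| ≤ ((K + 1 : ℕ) : ℝ)}).Finite := by
      refine ((ix hu N) ×ˢ (ix hu N)).finite_toSet.subset ?_
      intro p hp
      rw [Finset.mem_coe, Finset.mem_product, mem_ix, mem_ix]
      exact ⟨⟨hp.1, hp.2.2.1⟩, ⟨hp.2.1, hp.2.2.2.1⟩⟩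
    have h2 : ((PP hu N).filter fun p => |u p.1 - u p.2| ≤ ((K + 1 : ℕ) : ℝ)).card ≤
        ({p : ℕ × ℕ | 1 ≤ p.1 ∧ 1 ≤ p.2 ∧ u p.1 ≤ N ∧ u p.2 ≤ N ∧
        |u p.1 - u p.2| ≤ ((K + 1 : ℕ) : ℝ)}).ncard := by
      rw [← Set.ncard_coe_finset]
      refine Set.ncard_le_ncard ?_ h1
      intro p hp
      rw [Finset.mem_coe, Finset.mem_filter, mem_PP] at hp
      exact ⟨hp.1.1.1, hp.1.2.1.1, hp.1.1.2, hp.1.2.1.2, hp.2⟩
    exact_mod_cast h2
  have hmain : |(1 / N : ℝ) * psum u N f - (1 / N : ℝ) * ∑ p ∈ PP hu N, ∑ d ∈ I, f (d / M) *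
      (M * hat (1 / M) (d / M) (u p.1 - u p.2))| ≤ max C0 0 * ω := by
    rw [hpsum, ← mul_sub, ← Finset.sum_sub_distrib, abs_mul,
      abs_of_pos (by positivity : (0 : ℝ) < 1 / N)]
    have h1 : |∑ p ∈ PP hu N, (f (u p.1 - u p.2) - ∑ d ∈ I, f (d / M) *
        (M * hat (1 / M) (d / M) (u p.1 - u p.2)))| ≤ ω * (max C0 0 * N) := by
      refine (Finset.abs_sum_le_sum_abs _ _).trans ?_
      refine le_trans (Finset.sum_le_sum fun p _ => ?_) (le_trans (le_of_eq (Finset.mul_sum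
        (PP hu N) (fun p : ℕ × ℕ => if |u p.1 - u p.2| ≤ ((K + 1 : ℕ) : ℝ) then (1 : ℝ) else 0)
        ω).symm) (mul_le_mul_of_nonneg_left hcard hω0))
      rw [hI]
      exact point hM hfK hω (u p.1 - u p.2)
    calc (1 / N : ℝ) * _ ≤ (1 / N : ℝ) * (ω * (max C0 0 * N)) :=
          mul_le_mul_of_nonneg_left h1 (by positivity)
      _ = _ := by field_simp
  -- the sum in the statement
  have hst : f 0 * (M * corO u 2 N (fun _ => 0) (fun _ => 1 / M)) +
      ∑ d ∈ I.erase 0, f (d / M) * (M * corO u 2 N ![0, (d : ℝ) / M] ![1 / M, ((d : ℝ) + 1) / M]) =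
      ∑ d ∈ I, f (d / M) * (M * corO u 2 N ![0, (d : ℝ) / M] ![1 / M, ((d : ℝ) + 1) / M]) := by
    have h0 : (0 : ℤ) ∈ I := by
      rw [hI, Finset.mem_Icc]
      constructor <;> omega
    rw [← Finset.add_sum_erase I _ h0]
    congr 1
    have e1 : (fun _ : Fin 2 => (0 : ℝ)) = ![0, ((0 : ℤ) : ℝ) / M] := by
      funext i
      fin_cases i <;> simp
    have e2 : (fun _ : Fin 2 => 1 / (M : ℝ)) = ![1 / (M : ℝ), (((0 : ℤ) : ℝ) + 1) / M] := by
      funext i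
      fin_cases i <;> simp
    rw [e1, e2, Int.cast_zero, zero_div]
  rw [← hI, hst]
  obtain ⟨S1, hS1⟩ : ∃ S1 : ℝ, S1 = (1 / N : ℝ) * ∑ p ∈ PP hu N, ∑ d ∈ I, f (d / M) *
      (M * hat (1 / M) (d / M) (u p.1 - u p.2)) := ⟨_, rfl⟩
  rw [← hS1] at hsum hmain
  rw [abs_le] at hsum hmain ⊢
  constructor <;> linarith [hsum.1, hsum.2, hmain.1, hmain.2]

end Pool.Agent.Y445.SR
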